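import Pool.Agent.H73.TS.Targets

/-! MAIN of the board ts_modules: the main upper bound. -/

open MeasureTheory Set Metric
open scoped ENNReal

namespace Pool.Agent.H81.TS

open Pool.Agent.H73.TS

theorem main (hPAR : T_PAR) (hFIN : T_FIN) (hLIM : T_LIM) : T_MAIN := by
  intro d w v K T hd2 hd8 hw hK hKc hE hT
  obtain ⟨L, -, hvol, hell⟩ := hPAR d w v hw
  have hb : ∀ b : E d, ‖b‖ ≤ 1 / 2 → (v + ∑ i, (1 / 2 : ℝ) • w i) + L.symm b ∈ K :=
    fun b hb => hE (hell b hb)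
  have h := hLIM d L (v + ∑ i, (1 / 2 : ℝ) • w i) K T (by omega) hK
    (fun Q S hQ hQc hQn hS hSQ => hFIN d L _ K T Q S hd2 hd8 hK.isClosed hKc hb hT hS hQ hQc hQn hSQ)
  have hinv : ENNReal.ofReal |LinearMap.det (L : E d →ₗ[ℝ] E d)| = (volume (Par w v))⁻¹ := by
    rw [mul_comm] at hvol
    exact ENNReal.eq_inv_of_mul_eq_one_left hvol
  rw [hinv] at h
  rw [ENNReal.div_eq_inv_mul, mul_comm]
  exact h

end Pool.Agent.H81.TS
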